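import Pool.Agent.Helper46.NU.Goals1

/-!
# MP_1fe1ca_lc, packet DM1
-/

open MeasureTheory Filter Topology Set
open scoped ENNReal

noncomputable section

namespace NU.PkDM1

theorem nul_iUnion (S : Sys) {ι : Type} [Countable ι] (K : ι → Set (Pt S))
    (h : ∀ i, Nul S (K i)) : Nul S (⋃ i, K i) := by
  have h1 : ∀ᶠ φ in residual (Ph S), ∀ i, pr S φ (K i) = 0 :=
    eventually_countable_forall.2 h
  refine h1.mono fun φ hφ => ?_
  have h2 : {ω | zz S φ ω ∈ ⋃ i, K i} = ⋃ i, {ω | zz S φ ω ∈ K i} := by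
    ext ω
    simp only [Set.mem_iUnion, Set.mem_setOf_eq]
  show PP S {ω | zz S φ ω ∈ ⋃ i, K i} = 0
  rw [h2]
  exact measure_iUnion_null fun i => hφ i

theorem nul_mono (S : Sys) {K K' : Set (Pt S)} (hK : K ⊆ K') (h : Nul S K') : Nul S K := by
  refine Eventually.mono h fun φ hφ => ?_
  exact measure_mono_null (fun ω (hω : zz S φ ω ∈ K) => hK hω) hφ

theorem meas_bit {α : Type} [MeasurableSpace α] (g : α → ℕ → Bool) (hg : Measurable g) (m : ℕ)
    (b : Bool) : MeasurableSet {a | g a m = b} := by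
  have h1 : Measurable fun a => g a m := (measurable_pi_apply m).comp hg
  exact h1 (measurableSet_singleton b)

theorem meas_cyl {α : Type} [MeasurableSpace α] (g : α → ℕ → Bool) (hg : Measurable g)
    (n : ℕ) (t : Finset ℕ) : MeasurableSet {a | ∀ m < n, (g a m = true ↔ m ∈ t)} := by
  have h2 : {a | ∀ m < n, (g a m = true ↔ m ∈ t)} =
      ⋂ m ∈ Finset.range n, {a | (g a m = true ↔ m ∈ t)} := by
    ext a
    simp only [Set.mem_iInter, Set.mem_setOf_eq, Finset.mem_range]
  rw [h2]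
  refine Finset.measurableSet_biInter _ fun m _ => ?_
  by_cases hm : m ∈ t
  · have h3 : {a | (g a m = true ↔ m ∈ t)} = {a | g a m = true} := by
      ext a
      simp only [Set.mem_setOf_eq, hm, iff_true]
    rw [h3]
    exact meas_bit g hg m true
  · have h3 : {a | (g a m = true ↔ m ∈ t)} = {a | g a m = false} := by
      ext a
      simp only [Set.mem_setOf_eq, hm, iff_false, Bool.not_eq_true]
    rw [h3]
    exact meas_bit g hg m false

theorem meas_open {α : Type} [MeasurableSpace α] (g : α → ℕ → Bool) (hg : Measurable g)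
    (F : α → Set (Finset ℕ)) (hF : ∀ t, MeasurableSet {a | t ∈ F a}) :
    MeasurableSet {a | g a ∈ OpenOf (F a)} := by
  have h1 : {a | g a ∈ OpenOf (F a)} = ⋃ (t : Finset ℕ), ({a | t ∈ F a} ∩
      ⋃ (n : ℕ), ({a | LastN t n} ∩ {a | ∀ m < n, (g a m = true ↔ m ∈ t)})) := by
    ext a
    simp only [OpenOf, Cyl, Set.mem_iUnion, Set.mem_inter_iff, Set.mem_setOf_eq]
  rw [h1]
  refine MeasurableSet.iUnion fun t => (hF t).inter ?_
  refine MeasurableSet.iUnion fun n => ?_
  refine MeasurableSet.inter ?_ (meas_cyl g hg n t)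
  by_cases h : LastN t n
  · have : {a : α | LastN t n} = Set.univ := by ext a; simp [h]
    rw [this]; exact MeasurableSet.univ
  · have : {a : α | LastN t n} = ∅ := by ext a; simp [h]
    rw [this]; exact MeasurableSet.empty

theorem meas_blk {α : Type} [MeasurableSpace α] (g g' : α → ℕ → Bool) (hg : Measurable g)
    (hg' : Measurable g') (s : Finset ℕ) : MeasurableSet {a | ∀ m ∈ s, g a m = g' a m} := by
  have h2 : {a | ∀ m ∈ s, g a m = g' a m} = ⋂ m ∈ s, {a | g a m = g' a m} := by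
    ext a
    simp only [Set.mem_iInter, Set.mem_setOf_eq]
  rw [h2]
  refine Finset.measurableSet_biInter _ fun m _ => ?_
  exact measurableSet_eq_fun ((measurable_pi_apply m).comp hg) ((measurable_pi_apply m).comp hg')

/-- The set of the points of the closed set in the node. -/
def N {S : Sys} (F : Pt S → Set (Finset ℕ)) (l : ℕ) (u : Finset ℕ) (z : Pt S) :
    Set (ℕ → Bool) := {y | y ∉ OpenOf (F z) ∧ ∀ m < l, (y m = true ↔ m ∈ u)}

theorem meas_N {S : Sys} (F : Pt S → Set (Finset ℕ)) (hF : ∀ t, MeasurableSet {z | t ∈ F z})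
    (l : ℕ) (u : Finset ℕ) {α : Type} [MeasurableSpace α] (f : α → Pt S) (hf : Measurable f)
    (g : α → ℕ → Bool) (hg : Measurable g) : MeasurableSet {a | g a ∈ N F l u (f a)} := by
  have h1 : {a | g a ∈ N F l u (f a)} = {a | g a ∈ OpenOf (F (f a))}ᶜ ∩
      {a | ∀ m < l, (g a m = true ↔ m ∈ u)} := by
    ext a
    simp only [N, Set.mem_inter_iff, Set.mem_setOf_eq, Set.mem_compl_iff]
  rw [h1]
  exact (meas_open g hg (fun a => F (f a)) fun t => hf (hF t)).compl.inter (meas_cyl g hg l u)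

/-- The slalom. -/
def B {S : Sys} (F : Pt S → Set (Finset ℕ)) (l : ℕ) (u : Finset ℕ) (n : ℕ) :
    Set (Pt S × (ℕ → Bool)) := {p | coin {y ∈ N F l u p.1 | ∀ m ∈ blk n, y m = p.2 m} = 0}

theorem meas_B {S : Sys} (F : Pt S → Set (Finset ℕ)) (hF : ∀ t, MeasurableSet {z | t ∈ F z})
    (l : ℕ) (u : Finset ℕ) (n : ℕ) : MeasurableSet (B F l u n) := by
  have h1 : MeasurableSet {q : (Pt S × (ℕ → Bool)) × (ℕ → Bool) |
      q.2 ∈ N F l u q.1.1 ∧ ∀ m ∈ blk n, q.2 m = q.1.2 m} := by
    refine MeasurableSet.inter ?_ ?_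
    · exact meas_N F hF l u (fun q : (Pt S × (ℕ → Bool)) × (ℕ → Bool) => q.1.1)
        (measurable_fst.comp measurable_fst) (fun q => q.2) measurable_snd
    · exact meas_blk (fun q : (Pt S × (ℕ → Bool)) × (ℕ → Bool) => q.2) (fun q => q.1.2)
        measurable_snd (measurable_snd.comp measurable_fst) (blk n)
  have h2 := measurable_measure_prodMk_left (ν := coin) h1
  exact h2 (measurableSet_singleton 0)

theorem dm1 (sla : G_SLA) (mrt : G_MRT) : G_DM1 := by
  intro S ξ hξ hsee F hF Γ hΓ hdep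
  have key : ∀ p : ℕ × Finset ℕ, Nul S {z |
      coin {x | x ∉ OpenOf (F z) ∧ ∀ m < p.1, (x m = true ↔ m ∈ p.2)} ≠ 0 ∧
      ∀ᶠ n in atTop, coin {x | x ∉ OpenOf (F z) ∧ (∀ m < p.1, (x m = true ↔ m ∈ p.2)) ∧
        ∀ m ∈ blk n, x m = z ξ m} = 0} := by
    rintro ⟨l, u⟩
    refine nul_mono S ?_ (sla S ξ hξ hsee (B F l u) (meas_B F hF l u) ?_ ?_)
    · rintro z ⟨hz1, hz2⟩
      refine ⟨?_, ?_⟩
      · have h1 : MeasurableSet (N F l u z) :=
          meas_N F hF l u (fun _ : ℕ → Bool => z) measurable_const (fun y => y) measurable_id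
        exact mrt (N F l u z) h1 hz1
      · refine hz2.mono fun n hn => ?_
        show coin {y ∈ N F l u z | ∀ m ∈ blk n, y m = z ξ m} = 0
        have h2 : {y ∈ N F l u z | ∀ m ∈ blk n, y m = z ξ m} =
            {x | x ∉ OpenOf (F z) ∧ (∀ m < l, (x m = true ↔ m ∈ u)) ∧
              ∀ m ∈ blk n, x m = z ξ m} := by
          ext y
          simp only [N, Set.mem_setOf_eq, and_assoc]
        rw [h2]
        exact hn
    · intro n z x x' hx
      have h3 : {y ∈ N F l u z | ∀ m ∈ blk n, y m = x m} =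
          {y ∈ N F l u z | ∀ m ∈ blk n, y m = x' m} := by
        ext y
        simp only [Set.mem_setOf_eq]
        refine and_congr_right fun _ => ?_
        exact ⟨fun h m hm => (h m hm).trans (hx m hm), fun h m hm => (h m hm).trans (hx m hm).symm⟩
      show coin {y ∈ N F l u z | ∀ m ∈ blk n, y m = x m} = 0 ↔
        coin {y ∈ N F l u z | ∀ m ∈ blk n, y m = x' m} = 0
      rw [h3]
    · intro n z z' x hz
      have h4 : F z = F z' := hdep z z' fun c hc => hz c fun h => hΓ (h ▸ hc)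
      show coin {y ∈ N F l u z | ∀ m ∈ blk n, y m = x m} = 0 ↔
        coin {y ∈ N F l u z' | ∀ m ∈ blk n, y m = x m} = 0
      have h5 : N F l u z = N F l u z' := by
        unfold N
        rw [h4]
      rw [h5]
  refine nul_mono S ?_ (nul_iUnion S _ key)
  rintro z ⟨l, u, h1, h2⟩
  exact Set.mem_iUnion.2 ⟨(l, u), h1, h2⟩

end NU.PkDM1
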